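import Pool.Agent.H79.MW.Rep
import Pool.Agent.H79.L.W5h68_SP_CycDefs

/-!
# The Künneth formula and cyclic coverings for the weight-graded cohomology: definitions
-/

set_option autoImplicit false

open CategoryTheory AlgebraicGeometry TensorProduct Pool.Agent.Y116.UV Pool.Agent.H89.Dev
  Pool.Agent.H89.MW Pool.Agent.W5h68.SP

universe u v

namespace Pool.Agent.H79.MW

/-- Further standard properties of the graded pieces `H n w X = gr^W_w H^n_c(X_{\bar K}, Ω)` of the weight
filtration of the `ℓ`-adic cohomology with compact supports.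

* `bounded`: `H n w X` is nonzero only for finitely many pairs `(n, w)`;
* `kunneth`: the Künneth formula
  `gr^W_w H^n_c(X × Y) = ⊕_{i, a} gr^W_a H^i_c(X) ⊗ gr^W_{w - a} H^{n - i}_c(Y)` for affine `X`, `Y` (the
  sum is over any finite set `S` of pairs `(i, a)` which contains all those with a nonzero term of `X`);
* `covering`: for a unit `u` of `A` the cohomology of `Spec A` is a direct factor of the cohomology of its
  finite étale covering `Spec A[s] / (s ^ d - u)`. -/
structure IsWeightCohomologyK {k : Type} [Field k] {Ω : Type u} [Field Ω] (q : ℕ)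
    (H : ℤ → ℤ → Sch k → Rep.{u, v} Ω) : Prop extends IsWeightCohomology q H where
  bounded : ∀ (A : Type) [CommRing A] [Algebra k A] [Algebra.FiniteType k A],
    {p : ℤ × ℤ | ¬ Subsingleton (H p.1 p.2 (aff k A)).V}.Finite
  kunneth : ∀ (A B : Type) [CommRing A] [Algebra k A] [Algebra.FiniteType k A] [CommRing B]
    [Algebra k B] [Algebra.FiniteType k B] (n w : ℤ) (S : Finset (ℤ × ℤ)),
    (∀ p, p ∉ S → Subsingleton (H p.1 p.2 (aff k A)).V) →
    (H n w (aff k (A ⊗[k] B))).Iso (dsum fun p : S =>
      tensor (H p.1.1 p.1.2 (aff k A)) (H (n - p.1.1) (w - p.1.2) (aff k B)))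
  covering : ∀ (A : Type) [CommRing A] [Algebra k A] [Algebra.FiniteType k A] (d : ℕ) (u : A), 0 < d →
    IsUnit u → ∀ n w, IsFactor (H n w (aff k A)) (H n w (aff k (Cyc A d u)))

end Pool.Agent.H79.MW
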