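import Pool.Agent.H79.MW.KDefs
import Pool.Agent.H79.L.W5h68_BT_Cls
import Pool.Agent.H89.MW.Closed
import Pool.Agent.H89.Dev.Torus

/-!
# Schemes built from schemes of dimension at most `n`, and mw pure cohomology
-/

set_option autoImplicit false

open CategoryTheory AlgebraicGeometry TensorProduct Pool.Agent.Y116.UV Pool.Agent.H89.Dev
  Pool.Agent.H89.MW Pool.Agent.W5h68.SP Pool.Agent.W5h68.PJ Pool.Agent.W5h68.BT Pool.Agent.Z125.UN

universe u v

namespace Pool.Agent.H79.MW

section

variable {k : Type} [Field k] {Ω : Type u} [Field Ω] [CharZero Ω] [IsAlgClosed Ω] {q : ℕ}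
  {H : ℤ → ℤ → Sch k → Rep.{u, v} Ω}

/-- products -/
lemma allPure_prod (hq : 1 < q) (hH : IsWeightCohomologyK q H) {A B : Type} [CommRing A]
    [Algebra k A] [Algebra.FiniteType k A] [CommRing B] [Algebra k B] [Algebra.FiniteType k B]
    (hA : AllPure q H (aff k A)) (hB : AllPure q H (aff k B)) : AllPure q H (aff k (A ⊗[k] B)) := by
  intro n w
  let S : Finset (ℤ × ℤ) := (hH.bounded A).toFinset
  have hS : ∀ p, p ∉ S → Subsingleton (H p.1 p.2 (aff k A)).V := by
    intro p hp
    by_contra h
    exact hp ((hH.bounded A).mem_toFinset.mpr h)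
  have h1 : (dsum fun p : S =>
      tensor (H p.1.1 p.1.2 (aff k A)) (H (n - p.1.1) (w - p.1.2) (aff k B))).IsPure q w := by
    refine IsPure.dsum hq (fun p => tensor_isLocal (hH.isLocal _ _ _) (hH.isLocal _ _ _)) fun p => ?_
    have h2 := IsPure.tensor hq (hH.isLocal _ _ _) (hH.isLocal _ _ _) (hA p.1.1 p.1.2)
      (hB (n - p.1.1) (w - p.1.2))
    rwa [show p.1.2 + (w - p.1.2) = w by ring] at h2
  exact h1.iso (hH.kunneth A B n w S hS).symm

/-- coverings -/
lemma allPure_cyc (hq : 1 < q) (hH : IsWeightCohomologyK q H) {A : Type} [CommRing A]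
    [Algebra k A] [Algebra.FiniteType k A] (d : ℕ) (u : A) (hd : 0 < d) (hu : IsUnit u)
    (h : AllPure q H (aff k (Cyc A d u))) : AllPure q H (aff k A) := fun n w =>
  IsPure.factor hq (hH.isLocal _ _ _) (hH.isLocal _ _ _) (hH.covering A d u hd hu n w) (h n w)

/-- the closure properties for affine schemes -/
lemma allPure_clk (hq : 1 < q) (hH : IsWeightCohomologyK q H) :
    ClK k fun A => AllPure q H (aff k A) :=
  { Cl.of_bnd (bnd_allPure hq hH.toIsWeightCohomology) with
    prod := fun hA hB => allPure_prod hq hH hA hB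
    cyc := fun d u hd hu h => allPure_cyc hq hH d u hd hu h }

/-- **The schemes built from the schemes of dimension at most `n`.** -/
theorem built_allPure (hq : 1 < q) (hH : IsWeightCohomologyK q H) {n : ℕ}
    (h : ∀ (A : Type) [CommRing A] [Algebra k A] [Algebra.FiniteType k A], ringKrullDim A ≤ n →
      AllPure q H (aff k A)) {X : Sch k} (hX : Pool.Agent.W5h68.BT.Built k n X) : AllPure q H X := by
  have hP := bnd_allPure hq hH.toIsWeightCohomology
  have hC := allPure_clk hq hH
  have h0 : ∀ {A : Type} [CommRing A] [Algebra k A], Aff k n A → AllPure q H (aff k A) := by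
    intro A _ _ hA
    induction hA with
    | dim hd => exact h _ hd
    | iso e hA ih =>
      have := aff_ft hA
      exact hC.iso e ih
    | total f h1 h2 ih1 ih2 => exact hC.total f ih1 ih2
    | opened f h1 h2 ih1 ih2 => exact hC.opened f ih1 ih2
    | closed f h1 h2 ih1 ih2 => exact hC.closed f ih1 ih2
    | poly h ih => exact hC.poly ih
    | prod hA hB ih1 ih2 => exact hC.prod ih1 ih2
    | cyc d u hd hu h ih => exact hC.cyc d u hd hu ih
    | torus h ih => exact hP.torus _ ih
  induction hX with
  | aff hA => exact h0 hA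
  | iso hX e _ ih => exact hP.iso hX ⟨e⟩ ih
  | total i j hX ht _ _ ih1 ih2 => exact hP.total i j hX ht ih1 ih2
  | opened i j hX ht _ _ ih1 ih2 => exact hP.opened i j hX ht ih1 ih2
  | closed i j hX ht _ _ ih1 ih2 => exact hP.closed i j hX ht ih1 ih2

end

section

variable {k : Type} [Field k] [CharZero k] {Ω : Type u} [Field Ω] [CharZero Ω] [IsAlgClosed Ω]
  {q : ℕ} {H : ℤ → ℤ → Sch k → Rep.{u, v} Ω}

/-- The conjecture in dimension at most `n` and the schemes built from schemes of dimension at most
`n`. -/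
theorem class_iff_built (hq : 1 < q) (hH : IsWeightCohomologyK q H) {Q : Sch k → Prop}
    (hQ : IsClass Q) {n : ℕ} (hM : ModelsIn Q n) :
    ForClass Q (MonodromyWeight q H) n ↔
      ∀ X : Sch k, Pool.Agent.W5h68.BT.Built k n X → AllPure q H X := by
  have hP := bnd_allPure hq hH.toIsWeightCohomology
  rw [forClass_iff hH.toIsWeightCohomology hQ n]
  constructor
  · intro h X hX
    refine built_allPure hq hH (fun A _ _ _ hA => ?_) hX
    refine devissage hP hQ hM h _ (ft_aff True) ?_
    rw [topDim_aff]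
    exact hA
  · intro h X hX hn
    exact of_affine_dim hP (fun A _ _ _ hA => h _ (.aff (.dim hA))) X (hQ.ft hX) hn

end

end Pool.Agent.H79.MW
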