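import Pool.Agent.H79.MW.Ten

/-!
# Tensor products, finite direct sums and direct factors of mw pure representations
-/

set_option autoImplicit false

open Module TensorProduct Pool.Agent.H89.MW

universe u v w

namespace Pool.Agent.H79.MW

variable {Ω : Type u} [Field Ω]

/-- The tensor product of two representations: a geometric Frobenius element acts by `Φ ⊗ Φ`, the
logarithm of the monodromy by `N ⊗ 1 + 1 ⊗ N`. -/
noncomputable def tensor (A B : Rep.{u, v} Ω) : Rep.{u, v} Ω where
  V := A.V ⊗[Ω] B.V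
  Φ := TensorProduct.map A.Φ B.Φ
  N := TensorProduct.map A.N LinearMap.id + TensorProduct.map LinearMap.id B.N

/-- The direct sum of a family of representations (used for finite families). -/
def dsum {ι : Type} (A : ι → Rep.{u, v} Ω) : Rep.{u, v} Ω where
  V := ∀ i, (A i).V
  Φ := LinearMap.pi fun i => (A i).Φ ∘ₗ LinearMap.proj i
  N := LinearMap.pi fun i => (A i).N ∘ₗ LinearMap.proj i

/-- `A` is a direct factor of `B`. -/
def IsFactor (A B : Rep.{u, v} Ω) : Prop :=
  ∃ (s : Pool.Agent.H89.MW.Rep.Hom A B) (r : Pool.Agent.H89.MW.Rep.Hom B A), ∀ x, r.toFun (s.toFun x) = x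

lemma tensor_isLocal {q : ℕ} {A B : Rep.{u, v} Ω} (hA : A.IsLocal q) (hB : B.IsLocal q) :
    (tensor A B).IsLocal q where
  finite := by
    have := hA.finite
    have := hB.finite
    exact inferInstanceAs (Module.Finite Ω (A.V ⊗[Ω] B.V))
  relation := by
    intro z
    change A.V ⊗[Ω] B.V at z
    change (TensorProduct.map A.N LinearMap.id + TensorProduct.map LinearMap.id B.N :
        Module.End Ω (A.V ⊗[Ω] B.V)) (TensorProduct.map A.Φ B.Φ z) =
      (q : Ω) • TensorProduct.map A.Φ B.Φ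
        ((TensorProduct.map A.N LinearMap.id + TensorProduct.map LinearMap.id B.N :
          Module.End Ω (A.V ⊗[Ω] B.V)) z)
    induction z using TensorProduct.induction_on with
    | zero => simp
    | tmul x y =>
      simp only [LinearMap.add_apply, TensorProduct.map_tmul, LinearMap.id_apply, map_add,
        hA.relation, hB.relation, smul_add, TensorProduct.smul_tmul', TensorProduct.tmul_smul]
    | add x y hx hy => rw [map_add, map_add, hx, hy, map_add, map_add, smul_add]

lemma dsum_isLocal {q : ℕ} {ι : Type} [Finite ι] {A : ι → Rep.{u, v} Ω}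
    (hA : ∀ i, (A i).IsLocal q) : (dsum A).IsLocal q where
  finite := by
    have := fun i => (hA i).finite
    exact inferInstanceAs (Module.Finite Ω (∀ i, (A i).V))
  relation := by
    intro x
    funext i
    exact (hA i).relation (x i)

variable [CharZero Ω] [IsAlgClosed Ω] {q : ℕ}

/-- **Tensor products of mw pure representations.** -/
theorem IsPure.tensor (hq : 1 < q) {A B : Rep.{u, v} Ω} (hA : A.IsLocal q) (hB : B.IsLocal q)
    {i j : ℤ} (h : A.IsPure q i) (h' : B.IsPure q j) : (tensor A B).IsPure q (i + j) := by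
  have := hA.finite
  have := hB.finite
  rw [Rep.isPure_iff hq (tensor_isLocal hA hB)]
  obtain ⟨I, _, b, a, e, hh, hs, hb⟩ := adp_of_wPure hq hA.relation
    ((Rep.isPure_iff hq hA i).mp h)
  obtain ⟨I', _, b', a', e', hh', hs', hb'⟩ := adp_of_wPure hq hB.relation
    ((Rep.isPure_iff hq hB j).mp h')
  have h1 := Pool.Agent.Y210.MW.t_B3 Ω A.V B.V A.N I b a e hh B.N I' b' a' e' hh' hs hs'
  refine wPure_of_adp hq ⟨I × I', inferInstance, b.tensorProduct b', _, _, _, h1, ?_⟩
  rintro ⟨s, t⟩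
  have h0 : (b.tensorProduct b') (s, t) = b s ⊗ₜ[Ω] b' t := Basis.tensorProduct_apply b b' s t
  change (b.tensorProduct b') (s, t) ∈ wt (TensorProduct.map A.Φ B.Φ)
    (Ws Ω q (i + j + (a s + a' t)))
  rw [h0]
  have key : ∀ (x : A.V) (y : B.V), x ∈ wt A.Φ (Ws Ω q (i + a s)) →
      y ∈ wt B.Φ (Ws Ω q (j + a' t)) → x ⊗ₜ[Ω] y ∈ wt (TensorProduct.map A.Φ B.Φ)
        (Ws Ω q (i + j + (a s + a' t))) := by
    intro x y hx hy
    have h2 : wt A.Φ (Ws Ω q (i + a s)) ≤ (wt (TensorProduct.map A.Φ B.Φ)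
        (Ws Ω q (i + j + (a s + a' t)))).comap ((TensorProduct.mk Ω A.V B.V).flip y) := by
      refine iSup₂_le fun α hα z hz => ?_
      have h3 : wt B.Φ (Ws Ω q (j + a' t)) ≤ (wt (TensorProduct.map A.Φ B.Φ)
          (Ws Ω q (i + j + (a s + a' t)))).comap ((TensorProduct.mk Ω A.V B.V) z) := by
        refine iSup₂_le fun β hβ t' ht' => ?_
        have h4 : α * β ∈ Ws Ω q (i + j + (a s + a' t)) := by
          have h5 := weil_mul (by omega) hα hβ
          rwa [show i + a s + (j + a' t) = i + j + (a s + a' t) by ring] at h5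
        exact gen_le_wt _ h4 (Pool.Agent.Y136.UB.gen_tmul hz ht')
      exact h3 hy
    exact h2 hx
  exact key _ _ (hb s) (hb' t)

omit [IsAlgClosed Ω] [CharZero Ω] in
lemma mem_wt_dsum {ι : Type} [Finite ι] {A : ι → Rep.{u, v} Ω} {S : Set Ω} {x : ∀ i, (A i).V} :
    x ∈ wt (dsum A).Φ S ↔ ∀ i, x i ∈ wt (A i).Φ S := by
  classical
  have := Fintype.ofFinite ι
  constructor
  · intro hx i
    exact wt_hom (Φ := (dsum A).Φ) (Ψ := (A i).Φ) (f := LinearMap.proj i) (fun _ => rfl) hx
  · intro hx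
    have h1 : x = ∑ i, LinearMap.single Ω (fun i => (A i).V) i (x i) :=
      (Finset.univ_sum_single x).symm
    rw [h1]
    refine Submodule.sum_mem _ fun i _ => ?_
    refine wt_hom (Φ := (A i).Φ) (Ψ := (dsum A).Φ) (f := LinearMap.single Ω (fun i => (A i).V) i)
      (fun y => ?_) (hx i)
    funext j
    change (Pi.single i ((A i).Φ y) : ∀ i, (A i).V) j = (A j).Φ ((Pi.single i y : ∀ i, (A i).V) j)
    by_cases hij : j = i
    · subst hij
      rw [Pi.single_eq_same, Pi.single_eq_same]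
    · rw [Pi.single_eq_of_ne hij, Pi.single_eq_of_ne hij, map_zero]

omit [IsAlgClosed Ω] [CharZero Ω] in
lemma dsum_pow {ι : Type} (A : ι → Rep.{u, v} Ω) (a : ℕ) (x : ∀ i, (A i).V) (i : ι) :
    (((dsum A).N ^ a) x : ∀ i, (A i).V) i = ((A i).N ^ a) (x i) := by
  induction a generalizing x with
  | zero => rfl
  | succ a ih =>
    rw [pow_succ, Module.End.mul_apply, pow_succ, Module.End.mul_apply]
    exact ih _

/-- Finite direct sums of mw pure representations. -/
theorem IsPure.dsum (hq : 1 < q) {ι : Type} [Finite ι] {A : ι → Rep.{u, v} Ω}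
    (hA : ∀ i, (A i).IsLocal q) {j : ℤ} (h : ∀ i, (A i).IsPure q j) : (dsum A).IsPure q j := by
  rw [Rep.isPure_iff hq (dsum_isLocal hA)]
  have h' : ∀ i, WPure q j (A i).Φ (A i).N := fun i => (Rep.isPure_iff hq (hA i) j).mp (h i)
  refine ⟨?_, ?_, ?_⟩
  · rw [eq_top_iff]
    intro x _
    refine mem_wt_dsum.mpr fun i => ?_
    rw [(h' i).weil]
    exact Submodule.mem_top
  · intro a x hx h0
    funext i
    refine (h' i).inj a _ (mem_wt_dsum.mp hx i) ?_
    rw [← dsum_pow, h0]
    rfl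
  · intro a y hy
    choose x hx hxy using fun i => (h' i).surj a _ (mem_wt_dsum.mp hy i)
    refine ⟨x, mem_wt_dsum.mpr hx, ?_⟩
    funext i
    rw [dsum_pow]
    exact hxy i

/-- Direct factors of mw pure representations. -/
theorem IsPure.factor (hq : 1 < q) {A B : Rep.{u, v} Ω} (hA : A.IsLocal q) (hB : B.IsLocal q)
    (hf : IsFactor A B) {j : ℤ} (h : B.IsPure q j) : A.IsPure q j := by
  rw [Rep.isPure_iff hq hB] at h
  rw [Rep.isPure_iff hq hA]
  obtain ⟨s, r, hsr⟩ := hf
  refine ⟨?_, ?_, ?_⟩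
  · rw [eq_top_iff]
    intro x _
    rw [← hsr x]
    refine wt_hom r.map_Φ ?_
    rw [h.weil]
    exact Submodule.mem_top
  · intro a x hx h0
    have h1 : s.toFun x = 0 := by
      refine h.inj a _ (wt_hom s.map_Φ hx) ?_
      rw [← Pool.Agent.H89.MW.Rep.Hom.map_pow, h0, map_zero]
    rw [← hsr x, h1, map_zero]
  · intro a y hy
    obtain ⟨x, hx, hxy⟩ := h.surj a _ (wt_hom s.map_Φ hy)
    refine ⟨r.toFun x, wt_hom r.map_Φ hx, ?_⟩
    rw [← Pool.Agent.H89.MW.Rep.Hom.map_pow, hxy, hsr]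

end Pool.Agent.H79.MW
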