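import Pool.Agent.H89.MW.Five
import Pool.Agent.H79.L.Y153_MW_A
import Pool.Agent.H79.L.Y614_MW_F
import Pool.Agent.H79.L.Y664_MW_B2
import Pool.Agent.H79.L.Y210_MW_B3
import Pool.Agent.H79.L.Y141_MW_L
import Pool.Agent.H79.L.Y163_MW_Lin
import Pool.Agent.H79.L.Y136_UB_GenEig

/-!
# Tensor products, finite direct sums and direct factors of mw pure representations
-/

set_option autoImplicit false

open Module TensorProduct Polynomial Pool.Agent.H89.MW

universe u v w

namespace Pool.Agent.H79.MW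

section weil

variable {Ω : Type u} [Field Ω] [CharZero Ω]

/-- The conjugates of a product are products of conjugates. -/
lemma exists_root_of_mul {α β : Ω} (hα : IsAlgebraic ℚ α) (hβ : IsAlgebraic ℚ β) {y : ℂ}
    (hy : aeval y (minpoly ℚ (α * β)) = 0) : ∃ z z' : ℂ, aeval z (minpoly ℚ α) = 0 ∧
      aeval z' (minpoly ℚ β) = 0 ∧ z * z' = y := by
  let E := IntermediateField.adjoin ℚ {α, β}
  let a : E := ⟨α, IntermediateField.subset_adjoin ℚ _ (by simp)⟩
  let b : E := ⟨β, IntermediateField.subset_adjoin ℚ _ (by simp)⟩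
  have halgE : Algebra.IsAlgebraic ℚ E := by
    apply IntermediateField.isAlgebraic_adjoin
    intro x hx
    rcases hx with rfl | hx
    · exact hα.isIntegral
    · rw [Set.mem_singleton_iff.1 hx]
      exact hβ.isIntegral
  have hmin : ∀ x : E, minpoly ℚ x = minpoly ℚ (x : Ω) := fun x =>
    (minpoly.algebraMap_eq (B := E) (B' := Ω) (algebraMap E Ω).injective x).symm
  have hc : minpoly ℚ (a * b) = minpoly ℚ (α * β) := hmin (a * b)
  let F := IntermediateField.adjoin ℚ ({a * b} : Set E)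
  have hint : IsIntegral ℚ (a * b) := (halgE.isAlgebraic (a * b)).isIntegral
  have hyroot : y ∈ (minpoly ℚ (a * b)).aroots ℂ := by
    rw [mem_aroots]
    exact ⟨minpoly.ne_zero hint, by rw [hc]; exact hy⟩
  let ψ : F →ₐ[ℚ] ℂ := (IntermediateField.algHomAdjoinIntegralEquiv ℚ hint).symm ⟨y, hyroot⟩
  have hψ : ψ (IntermediateField.AdjoinSimple.gen ℚ (a * b)) = y :=
    IntermediateField.algHomAdjoinIntegralEquiv_symm_apply_gen ℚ hint ⟨y, hyroot⟩
  let _ : Algebra F ℂ := ψ.toRingHom.toAlgebra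
  have hst : IsScalarTower ℚ F ℂ := IsScalarTower.of_algebraMap_eq (fun x => (ψ.commutes x).symm)
  have halgF : Algebra.IsAlgebraic F E := Algebra.IsAlgebraic.tower_top (K := ℚ) F
  let Φ : E →ₐ[F] ℂ := IsAlgClosed.lift
  have hroot : ∀ x : E, aeval (Φ x) (minpoly ℚ (x : Ω)) = 0 := by
    intro x
    rw [← hmin]
    have h1 : aeval (Φ.restrictScalars ℚ x) (minpoly ℚ x) = 0 := by
      rw [aeval_algHom_apply, minpoly.aeval, map_zero]
    exact h1
  refine ⟨Φ a, Φ b, hroot a, hroot b, ?_⟩
  rw [← map_mul]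
  have h1 : (a * b : E) = algebraMap F E (IntermediateField.AdjoinSimple.gen ℚ (a * b)) :=
    (IntermediateField.AdjoinSimple.algebraMap_gen ℚ (a * b)).symm
  rw [h1, AlgHom.commutes]
  exact hψ

/-- The product of two Weil numbers. -/
lemma weil_mul {q : ℕ} (hq : 0 < q) {w w' : ℤ} {α β : Ω} (h : IsWeilNumber q w α)
    (h' : IsWeilNumber q w' β) : IsWeilNumber q (w + w') (α * β) := by
  refine ⟨h.1.mul h'.1, fun y hy => ?_⟩
  obtain ⟨z, z', hz, hz', rfl⟩ := exists_root_of_mul h.1 h'.1 hy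
  rw [norm_mul, h.2 z hz, h'.2 z' hz', ← Real.rpow_add (by exact_mod_cast hq)]
  congr 1
  push_cast
  ring

end weil

section grading

variable {Ω : Type u} [Field Ω] [CharZero Ω] {V : Type v} [AddCommGroup V] [Module Ω V]
  {q : ℕ} {Φ N : Module.End Ω V}

open Classical in
/-- the weight of a Weil number -/
noncomputable def wtf (q : ℕ) (α : Ω) : Option ℤ :=
  if h : ∃ w, IsWeilNumber q w α then some h.choose else none

lemma wtf_eq_some (hq : 1 < q) {w : ℤ} {α : Ω} : wtf q α = some w ↔ IsWeilNumber q w α := by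
  unfold wtf
  split_ifs with h
  · rw [Option.some_inj]
    constructor
    · rintro rfl
      exact h.choose_spec
    · intro h1
      exact IsWeilNumber.unique hq h.choose_spec h1
  · constructor
    · intro h1
      exact absurd h1 (by simp)
    · intro h1
      exact absurd ⟨w, h1⟩ h

/-- The weight spaces are independent. -/
lemma indep_wt (hq : 1 < q) (Φ : Module.End Ω V) (i : ℤ) :
    iSupIndep fun c : ℤ => wt Φ (Ws Ω q (i + c)) := by
  have h1 := Pool.Agent.Y163.MW.iSupIndep_fib (Module.End.independent_maxGenEigenspace Φ)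
    (wtf (Ω := Ω) q)
  have h2 := h1.comp (f := fun c : ℤ => some (i + c)) (fun a b hab => by
    have := Option.some_inj.mp hab
    omega)
  convert h2 using 2 with c
  rw [wt]
  apply le_antisymm
  · exact iSup₂_le fun α hα => le_iSup₂_of_le α ((wtf_eq_some hq).mpr hα) le_rfl
  · exact iSup₂_le fun α hα => le_iSup₂_of_le α ((wtf_eq_some hq).mp hα) le_rfl

lemma iSup_wt (h : wt Φ (Wa Ω q) = ⊤) (i : ℤ) : ⨆ c : ℤ, wt Φ (Ws Ω q (i + c)) = ⊤ := by
  rw [eq_top_iff, ← h, wt]
  refine iSup₂_le fun α hα => ?_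
  obtain ⟨w, hw⟩ := hα
  refine le_trans (gen_le_wt Φ (S := Ws Ω q (i + (w - i))) ?_)
    (le_iSup (fun c : ℤ => wt Φ (Ws Ω q (i + c))) (w - i))
  rw [show i + (w - i) = w by ring]
  exact hw

/-- A basis adapted to the weights and to a representation of `sl(2)` with lowering operator `N`. -/
def Adp (q : ℕ) (i : ℤ) (Φ N : Module.End Ω V) : Prop :=
  ∃ (I : Type) (_ : Fintype I) (b : Basis I Ω V) (a : I → ℤ) (e h : Module.End Ω V),
    Pool.Agent.Y163.MW.IsSl2 N b a e h ∧ ∀ s, b s ∈ wt Φ (Ws Ω q (i + a s))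

/-- mw pure representations have adapted bases. -/
theorem adp_of_wPure [FiniteDimensional Ω V] (hq : 1 < q)
    (hN : ∀ x, N (Φ x) = (q : Ω) • Φ (N x)) {i : ℤ} (h : WPure q i Φ N) : Adp q i Φ N := by
  classical
  have hi := indep_wt hq Φ i
  have hint : DirectSum.IsInternal fun c : ℤ => wt Φ (Ws Ω q (i + c)) :=
    DirectSum.isInternal_submodule_of_iSupIndep_of_iSup_eq_top hi (iSup_wt h.weil i)
  obtain ⟨S⟩ := Pool.Agent.Y153.MW.stA Ω V (fun c : ℤ => wt Φ (Ws Ω q (i + c))) N hint
    (fun r x hx => by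
      have := N_Ws hq hN hx
      rwa [show i + r - 2 = i + (r - 2) by ring] at this)
  have hC : Pool.Agent.Y163.MW.Centred (fun c : ℤ => wt Φ (Ws Ω q (i + c))) N := by
    intro a
    refine ⟨h.inj a, fun y hy => ?_⟩
    have hy' : y ∈ wt Φ (Ws Ω q (i - a)) := by
      rw [sub_eq_add_neg]
      exact hy
    exact h.surj a y hy'
  have htop := (Pool.Agent.Y614.MW.stF Ω V _ N hint S).mp hC
  obtain ⟨e, h', hs⟩ := Pool.Agent.Y664.MW.t_B2 Ω V _ N S
  refine ⟨_, inferInstance, S.b, _, e, h', hs, ?_⟩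
  rintro ⟨s, j⟩
  have h1 := S.mem s j
  rw [htop s] at h1
  exact h1

/-- Representations with adapted bases are mw pure. -/
theorem wPure_of_adp (hq : 1 < q) {i : ℤ} (h : Adp q i Φ N) : WPure q i Φ N := by
  obtain ⟨I, _, b, a, e, h', hs, hb⟩ := h
  have hspan : ∀ c : ℤ, wt Φ (Ws Ω q (i + c)) = Submodule.span Ω (b '' {s | a s = c}) :=
    fun c => Pool.Agent.Y163.MW.gr_eq_span (indep_wt hq Φ i) b a hb c
  have heig : ∀ (c : ℤ) x, x ∈ wt Φ (Ws Ω q (i + c)) ↔ h' x = (c : Ω) • x := by
    intro c x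
    rw [hspan]
    constructor
    · intro hx
      have : Submodule.span Ω (b '' {s | a s = c}) ≤ LinearMap.ker (h' - (c : Ω) • 1) := by
        rw [Submodule.span_le]
        rintro _ ⟨s, hs', rfl⟩
        rw [SetLike.mem_coe, LinearMap.mem_ker, LinearMap.sub_apply, LinearMap.smul_apply,
          Module.End.one_apply, hs.wt, show a s = c from hs', sub_self]
      have h2 := this hx
      rw [LinearMap.mem_ker, LinearMap.sub_apply, LinearMap.smul_apply, Module.End.one_apply] at h2
      exact sub_eq_zero.mp h2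
    · intro hx
      rw [b.mem_span_image]
      intro s hs'
      rw [Finset.mem_coe, Finsupp.mem_support_iff] at hs'
      by_contra hne
      apply hs'
      have h3 : ∀ x, b.repr (h' x) s = (a s : Ω) * b.repr x s := by
        intro x
        have h4 : (b.coord s) ∘ₗ h' = (a s : Ω) • b.coord s := by
          refine b.ext fun t => ?_
          rw [LinearMap.comp_apply, hs.wt, map_smul, LinearMap.smul_apply, b.coord_apply,
            Basis.repr_self, smul_eq_mul, smul_eq_mul]
          by_cases hst : t = s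
          · subst hst
            rfl
          · rw [Finsupp.single_eq_of_ne' hst, mul_zero, mul_zero]
        have h5 := congrArg (fun f : V →ₗ[Ω] Ω => f x) h4
        simpa using h5
      have h4 := h3 x
      rw [hx, map_smul, Finsupp.smul_apply, smul_eq_mul, ← sub_eq_zero, ← sub_mul] at h4
      rcases mul_eq_zero.mp h4 with h5 | h5
      · exfalso
        apply hne
        have h6 : ((c : Ω)) = (a s : Ω) := sub_eq_zero.mp h5
        exact (Int.cast_injective h6).symm
      · exact h5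
  refine ⟨?_, ?_, ?_⟩
  · rw [eq_top_iff, ← b.span_eq, Submodule.span_le]
    rintro _ ⟨s, rfl⟩
    exact wt_mono Φ (S := Ws Ω q (i + a s)) (T := Wa Ω q) (fun α hα => ⟨_, hα⟩) (hb s)
  · intro c x hx h0
    rw [heig] at hx
    refine (Pool.Agent.Y141.MW.stL Ω V N I b a e h' hs c).1 x ?_ h0
    rw [hx]
    norm_cast
  · intro c y hy
    rw [sub_eq_add_neg, heig] at hy
    obtain ⟨x, hx, hxy⟩ := (Pool.Agent.Y141.MW.stL Ω V N I b a e h' hs c).2 y (by
      rw [hy]
      push_cast
      rfl)
    refine ⟨x, ?_, hxy⟩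
    rw [heig, hx]
    norm_cast

end grading

end Pool.Agent.H79.MW
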